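import Mathlib

/-! Core of task E4 of `H354-NORE`: operators on `N = List B →₀ (Fin n → R)`. -/

set_option autoImplicit false

namespace Pool.Agent.H516R3.NORE

open Matrix

variable {k R B : Type} [Field k] [Ring R] [Algebra k R] {m n : ℕ}

/-- the representation space `L ⊗ T`, `L = R^n` (rows), `T` the free algebra on `B` -/
abbrev NN (R B : Type) [Ring R] (n : ℕ) := List B →₀ (Fin n → R)

/-- appending the word `y` on the right -/
noncomputable def shift (k R : Type) [Field k] [Ring R] [Algebra k R] (n : ℕ) (y : List B) :
    NN R B n →ₗ[k] NN R B n := Finsupp.lmapDomain (Fin n → R) k (fun x => x ++ y)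

/-- `l ↦ q l` -/
def vm (k : Type) [Field k] [Algebra k R] (q : Fin m → R) :
    (Fin n → R) →ₗ[k] Matrix (Fin m) (Fin n) R where
  toFun l := vecMulVec q l
  map_add' a b := by ext i j; simp [vecMulVec_apply, mul_add]
  map_smul' c a := by ext i j; simp [vecMulVec_apply]

variable (lam : Matrix (Fin m) (Fin n) R →ₗ[k] k) (cf : Matrix (Fin m) (Fin n) R →ₗ[k] (B →₀ k))

/-- `M ↦ x ι(M)` -/
noncomputable def E (x : NN R B n) : Matrix (Fin m) (Fin n) R →ₗ[k] NN R B n :=
  lam.smulRight x + (Finsupp.linearCombination k (fun β => shift k R n [β] x)) ∘ₗ cf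

/-- the operator `x ⊗ 1 ⊗ q` -/
noncomputable def Phi (x : NN R B n) (q : Fin m → R) : NN R B n →ₗ[k] NN R B n :=
  Finsupp.lsum k (fun y => shift k R n y ∘ₗ E lam cf x ∘ₗ vm k q)

lemma shift_single (y x : List B) (l : Fin n → R) :
    shift k R n y (Finsupp.single x l : NN R B n) = Finsupp.single (x ++ y) l := by
  unfold shift
  rw [Finsupp.lmapDomain_apply, Finsupp.mapDomain_single]

lemma shift_shift (y z : List B) (x : NN R B n) :
    shift k R n y (shift k R n z x) = shift k R n (z ++ y) x := by
  induction x using Finsupp.induction_linear with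
  | zero => simp
  | add f g hf hg => simp only [map_add, hf, hg]
  | single a b => rw [shift_single, shift_single, shift_single, List.append_assoc]

lemma Phi_single (x : NN R B n) (q : Fin m → R) (y : List B) (l : Fin n → R) :
    Phi lam cf x q (Finsupp.single y l) = shift k R n y (E lam cf x (vecMulVec q l)) := by
  unfold Phi
  rw [Finsupp.lsum_single]
  rfl

lemma Phi_shift (x : NN R B n) (q : Fin m → R) (z : List B) (w : NN R B n) :
    Phi lam cf x q (shift k R n z w) = shift k R n z (Phi lam cf x q w) := by
  induction w using Finsupp.induction_linear with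
  | zero => simp
  | add f g hf hg => simp only [map_add, hf, hg]
  | single a b => rw [shift_single, Phi_single, Phi_single, shift_shift]

lemma E_apply (x : NN R B n) (M : Matrix (Fin m) (Fin n) R) :
    E lam cf x M = lam M • x + (cf M).sum (fun β c => c • shift k R n [β] x) := by
  unfold E
  simp [Finsupp.linearCombination_apply]

lemma Phi_E (x x' : NN R B n) (q : Fin m → R) (M : Matrix (Fin m) (Fin n) R) :
    Phi lam cf x q (E lam cf x' M) = E lam cf (Phi lam cf x q x') M := by
  rw [E_apply, E_apply, map_add, map_smul, map_finsuppSum]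
  simp only [map_smul, Phi_shift]

lemma Phi_comp (x x' : NN R B n) (q q' : Fin m → R) :
    Phi lam cf x q ∘ₗ Phi lam cf x' q' = Phi lam cf (Phi lam cf x q x') q' := by
  apply LinearMap.ext
  intro w
  rw [LinearMap.comp_apply]
  induction w using Finsupp.induction_linear with
  | zero => simp
  | add f g hf hg => simp only [map_add, hf, hg]
  | single a b => rw [Phi_single, Phi_single, Phi_shift, Phi_E]

lemma smul_shift (r : R) (y : List B) (x : NN R B n) :
    r • shift k R n y x = shift k R n y (r • x) := by
  unfold shift
  rw [Finsupp.lmapDomain_apply, Finsupp.lmapDomain_apply, Finsupp.mapDomain_smul]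

lemma smul_E (r : R) (x : NN R B n) (M : Matrix (Fin m) (Fin n) R) :
    r • E lam cf x M = E lam cf (r • x) M := by
  rw [E_apply, E_apply, smul_add, smul_comm r (lam M) x, Finsupp.smul_sum]
  congr 1
  unfold Finsupp.sum
  refine Finset.sum_congr rfl fun β _ => ?_
  show r • cf M β • shift k R n [β] x = cf M β • shift k R n [β] (r • x)
  rw [← smul_shift, smul_comm]

lemma smul_Phi (r : R) (x : NN R B n) (q : Fin m → R) (w : NN R B n) :
    r • Phi lam cf x q w = Phi lam cf (r • x) q w := by
  induction w using Finsupp.induction_linear with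
  | zero => simp
  | add f g hf hg => simp only [map_add, smul_add, hf, hg]
  | single a b => rw [Phi_single, Phi_single, smul_shift, smul_E]

lemma Phi_smul (r : R) (x : NN R B n) (q : Fin m → R) (w : NN R B n) :
    Phi lam cf x q (r • w) = Phi lam cf x (fun a => q a * r) w := by
  induction w using Finsupp.induction_linear with
  | zero => simp
  | add f g hf hg => simp only [map_add, smul_add, hf, hg]
  | single a b =>
    rw [Finsupp.smul_single, Phi_single, Phi_single]
    congr 2
    ext i j
    simp [vecMulVec_apply, mul_assoc]

lemma E_add (x x' : NN R B n) : E lam cf (x + x') = E lam cf x + E lam cf x' := by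
  apply LinearMap.ext
  intro M
  rw [LinearMap.add_apply, E_apply, E_apply, E_apply]
  simp only [map_add, smul_add, Finsupp.sum_add]
  abel

lemma E_smul (c : k) (x : NN R B n) : E lam cf (c • x) = c • E lam cf x := by
  apply LinearMap.ext
  intro M
  rw [LinearMap.smul_apply, E_apply, E_apply, smul_add, Finsupp.smul_sum]
  simp only [map_smul]
  congr 1
  · rw [smul_comm]
  · unfold Finsupp.sum
    refine Finset.sum_congr rfl fun β _ => ?_
    show cf M β • c • shift k R n [β] x = c • cf M β • shift k R n [β] x
    rw [smul_comm]

lemma Phi_add_left (x x' : NN R B n) (q : Fin m → R) :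
    Phi lam cf (x + x') q = Phi lam cf x q + Phi lam cf x' q := by
  apply LinearMap.ext
  intro w
  induction w using Finsupp.induction_linear with
  | zero => simp
  | add f g hf hg => simp only [map_add, hf, hg]
  | single a b => rw [LinearMap.add_apply, Phi_single, Phi_single, Phi_single, E_add,
      LinearMap.add_apply, map_add]

lemma Phi_smul_left (c : k) (x : NN R B n) (q : Fin m → R) :
    Phi lam cf (c • x) q = c • Phi lam cf x q := by
  apply LinearMap.ext
  intro w
  induction w using Finsupp.induction_linear with
  | zero => simp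
  | add f g hf hg => simp only [map_add, hf, hg]
  | single a b => rw [LinearMap.smul_apply, Phi_single, Phi_single, E_smul,
      LinearMap.smul_apply, map_smul]

lemma Phi_add_right (x : NN R B n) (q q' : Fin m → R) :
    Phi lam cf x (q + q') = Phi lam cf x q + Phi lam cf x q' := by
  apply LinearMap.ext
  intro w
  induction w using Finsupp.induction_linear with
  | zero => simp
  | add f g hf hg => simp only [map_add, hf, hg]
  | single a b =>
    rw [LinearMap.add_apply, Phi_single, Phi_single, Phi_single, add_vecMulVec, map_add, map_add]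

lemma Phi_smul_right (c : k) (x : NN R B n) (q : Fin m → R) :
    Phi lam cf x (c • q) = c • Phi lam cf x q := by
  apply LinearMap.ext
  intro w
  induction w using Finsupp.induction_linear with
  | zero => simp
  | add f g hf hg => simp only [map_add, hf, hg]
  | single a b =>
    rw [LinearMap.smul_apply, Phi_single, Phi_single]
    have h : vecMulVec (c • q) b = c • vecMulVec q b := by
      ext i j
      simp [vecMulVec_apply]
    rw [h, map_smul, map_smul]

/-- evaluation of `shift` -/
lemma shift_apply_append (y z : List B) (x : NN R B n) : shift k R n y x (z ++ y) = x z := by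
  unfold shift
  rw [Finsupp.lmapDomain_apply]
  exact Finsupp.mapDomain_apply (fun a b h => List.append_cancel_right h) x z

lemma shift_apply_of_not (y z : List B) (x : NN R B n) (h : ∀ u, z = u ++ y → x u = 0) :
    shift k R n y x z = 0 := by
  by_cases hz : ∃ u, z = u ++ y
  · obtain ⟨u, rfl⟩ := hz
    rw [shift_apply_append]
    exact h u rfl
  · unfold shift
    rw [Finsupp.lmapDomain_apply]
    refine Finsupp.mapDomain_notin_range _ _ ?_
    rintro ⟨u, rfl⟩
    exact hz ⟨u, rfl⟩

/-- the words of `E x M` are at most one longer -/
lemma E_len (x : NN R B n) (M : Matrix (Fin m) (Fin n) R) (z : List B)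
    (h : ∀ u, x u ≠ 0 → u.length + 1 < z.length) : E lam cf x M z = 0 := by
  rw [E_apply, Finsupp.add_apply, Finsupp.smul_apply, Finsupp.sum, Finsupp.finset_sum_apply]
  have h1 : x z = 0 := by
    by_contra hz
    have := h z hz
    omega
  rw [h1, smul_zero, zero_add]
  refine Finset.sum_eq_zero fun β _ => ?_
  rw [Finsupp.smul_apply, shift_apply_of_not, smul_zero]
  rintro u rfl
  by_contra hu
  have := h u hu
  simp at this

lemma E_top (x : NN R B n) (M : Matrix (Fin m) (Fin n) R) (x0 : List B) (β : B)
    (h : ∀ u, x u ≠ 0 → u.length ≤ x0.length) : E lam cf x M (x0 ++ [β]) = cf M β • x x0 := by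
  classical
  rw [E_apply, Finsupp.add_apply, Finsupp.smul_apply, Finsupp.sum, Finsupp.finset_sum_apply]
  have h1 : x (x0 ++ [β]) = 0 := by
    by_contra hz
    have := h _ hz
    simp at this
  rw [h1, smul_zero, zero_add]
  by_cases hβ : β ∈ (cf M).support
  · rw [Finset.sum_eq_single β]
    · rw [Finsupp.smul_apply, shift_apply_append]
    · intro γ _ hγ
      rw [Finsupp.smul_apply, shift_apply_of_not, smul_zero]
      intro u hu
      exfalso
      have := List.append_inj_right' hu rfl
      simp at this
      exact hγ this.symm
    · intro hn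
      exact absurd hβ hn
  · rw [Finsupp.notMem_support_iff.1 hβ, zero_smul]
    refine Finset.sum_eq_zero fun γ hγ => ?_
    rw [Finsupp.smul_apply, shift_apply_of_not, smul_zero]
    intro u hu
    exfalso
    have := List.append_inj_right' hu rfl
    simp at this
    rw [this] at hβ
    exact hβ hγ

/-- **top coefficient** -/
lemma Phi_top (x w : NN R B n) (q : Fin m → R) (x0 y0 : List B) (β : B)
    (hx : ∀ u, x u ≠ 0 → u.length ≤ x0.length) (hw : ∀ u, w u ≠ 0 → u.length ≤ y0.length) :
    Phi lam cf x q w (x0 ++ β :: y0) = cf (vecMulVec q (w y0)) β • x x0 := by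
  classical
  have e0 : x0 ++ β :: y0 = (x0 ++ [β]) ++ y0 := by simp
  have e1 : Phi lam cf x q w = w.sum (fun y l => shift k R n y (E lam cf x (vecMulVec q l))) := by
    unfold Phi
    rw [Finsupp.lsum_apply]
    rfl
  rw [e1, Finsupp.sum, Finsupp.finset_sum_apply]
  by_cases hy : y0 ∈ w.support
  · rw [Finset.sum_eq_single y0]
    · rw [e0, shift_apply_append, E_top lam cf x _ x0 β hx]
    · intro y hy1 hy2
      refine shift_apply_of_not _ _ _ fun u hu => E_len lam cf x _ u fun v hv => ?_
      have h1 := hw y (Finsupp.mem_support_iff.1 hy1)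
      have h2 := hx v hv
      have h3 : (x0 ++ β :: y0).length = (u ++ y).length := by rw [hu]
      simp only [List.length_append, List.length_cons] at h3
      rcases Nat.lt_or_ge y.length y0.length with h4 | h4
      · omega
      · exfalso
        rw [e0] at hu
        exact hy2 (List.append_inj_right' hu (by omega)).symm
    · intro hn
      exact absurd hy hn
  · have h0 : w y0 = 0 := Finsupp.notMem_support_iff.1 hy
    have hv0 : vecMulVec q (0 : Fin n → R) = 0 := by ext i j; simp [vecMulVec_apply]
    rw [h0, hv0, map_zero, Finsupp.zero_apply, zero_smul]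
    refine Finset.sum_eq_zero fun y hy1 => ?_
    refine shift_apply_of_not _ _ _ fun u hu => E_len lam cf x _ u fun v hv => ?_
    have h1 := hw y (Finsupp.mem_support_iff.1 hy1)
    have h2 := hx v hv
    have h3 : (x0 ++ β :: y0).length = (u ++ y).length := by rw [hu]
    simp only [List.length_append, List.length_cons] at h3
    rcases Nat.lt_or_ge y.length y0.length with h4 | h4
    · omega
    · exfalso
      rw [e0] at hu
      have h5 := (List.append_inj_right' hu (by omega)).symm
      rw [h5] at hy1
      exact hy hy1

end Pool.Agent.H516R3.NORE
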