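import Mathlib
import Pool.Agent.H516R3.NORE.Core

/-! The ring `S` of task E4 of `H354-NORE`. -/

set_option autoImplicit false

namespace Pool.Agent.H516R3.NORE

open Matrix

variable {k R B : Type} [Field k] [Ring R] [Algebra k R] {m n : ℕ}

/-- the action of `R` -/
noncomputable def lsm (k R B : Type) [Field k] [Ring R] [Algebra k R] (n : ℕ) :
    R →ₐ[k] Module.End k (NN R B n) := Algebra.lsmul k k (NN R B n)

lemma lsm_apply (r : R) (w : NN R B n) : lsm k R B n r w = r • w := rfl

section

variable (lam : Matrix (Fin m) (Fin n) R →ₗ[k] k) (cf : Matrix (Fin m) (Fin n) R →ₗ[k] (B →₀ k))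

lemma lsm_mul_Phi (r : R) (x : NN R B n) (q : Fin m → R) :
    lsm k R B n r * Phi lam cf x q = Phi lam cf (r • x) q := by
  apply LinearMap.ext
  intro w
  exact smul_Phi lam cf r x q w

lemma Phi_mul_lsm (r : R) (x : NN R B n) (q : Fin m → R) :
    (Phi lam cf x q : Module.End k (NN R B n)) * lsm k R B n r =
      Phi lam cf x (fun a => q a * r) := by
  apply LinearMap.ext
  intro w
  exact Phi_smul lam cf r x q w

lemma Phi_mul_Phi (x x' : NN R B n) (q q' : Fin m → R) :
    (Phi lam cf x q : Module.End k (NN R B n)) * Phi lam cf x' q' =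
      Phi lam cf (Phi lam cf x q x') q' := Phi_comp lam cf x x' q q'

/-- `Phi` as a linear map in the second argument -/
noncomputable def PhiL (x : NN R B n) : (Fin m → R) →ₗ[k] Module.End k (NN R B n) where
  toFun q := Phi lam cf x q
  map_add' := Phi_add_right lam cf x
  map_smul' c q := Phi_smul_right lam cf c x q

/-- `Phi` as a linear map in the first argument -/
noncomputable def PhiX (q : Fin m → R) : NN R B n →ₗ[k] Module.End k (NN R B n) where
  toFun x := Phi lam cf x q
  map_add' x x' := Phi_add_left lam cf x x' q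
  map_smul' c x := Phi_smul_left lam cf c x q

/-- the operators of finite rank -/
noncomputable def II : Submodule k (Module.End k (NN R B n)) :=
  Submodule.span k {z | ∃ (x : NN R B n) (q : Fin m → R), z = Phi lam cf x q}

lemma Phi_mem (x : NN R B n) (q : Fin m → R) : Phi lam cf x q ∈ II lam cf :=
  Submodule.subset_span ⟨x, q, rfl⟩

lemma lsm_mul_mem (r : R) {z : Module.End k (NN R B n)} (hz : z ∈ II lam cf) :
    lsm k R B n r * z ∈ II lam cf := by
  unfold II at hz
  induction hz using Submodule.span_induction with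
  | mem z h =>
    obtain ⟨x, q, rfl⟩ := h
    rw [lsm_mul_Phi]
    exact Phi_mem lam cf _ _
  | zero => rw [mul_zero]; exact Submodule.zero_mem _
  | add a b _ _ ha hb => rw [mul_add]; exact Submodule.add_mem _ ha hb
  | smul c a _ ha => rw [mul_smul_comm]; exact Submodule.smul_mem _ _ ha

lemma mul_lsm_mem (r : R) {z : Module.End k (NN R B n)} (hz : z ∈ II lam cf) :
    z * lsm k R B n r ∈ II lam cf := by
  unfold II at hz
  induction hz using Submodule.span_induction with
  | mem z h =>
    obtain ⟨x, q, rfl⟩ := h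
    rw [Phi_mul_lsm]
    exact Phi_mem lam cf _ _
  | zero => rw [zero_mul]; exact Submodule.zero_mem _
  | add a b _ _ ha hb => rw [add_mul]; exact Submodule.add_mem _ ha hb
  | smul c a _ ha => rw [smul_mul_assoc]; exact Submodule.smul_mem _ _ ha

lemma mul_mem_II {z z' : Module.End k (NN R B n)} (hz : z ∈ II lam cf) (hz' : z' ∈ II lam cf) :
    z * z' ∈ II lam cf := by
  unfold II at hz
  induction hz using Submodule.span_induction with
  | mem z h =>
    obtain ⟨x, q, rfl⟩ := h
    unfold II at hz'
    induction hz' using Submodule.span_induction with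
    | mem z h =>
      obtain ⟨x', q', rfl⟩ := h
      rw [Phi_mul_Phi]
      exact Phi_mem lam cf _ _
    | zero => rw [mul_zero]; exact Submodule.zero_mem _
    | add a b _ _ ha hb => rw [mul_add]; exact Submodule.add_mem _ ha hb
    | smul c a _ ha => rw [mul_smul_comm]; exact Submodule.smul_mem _ _ ha
  | zero => rw [zero_mul]; exact Submodule.zero_mem _
  | add a b _ _ ha hb => rw [add_mul]; exact Submodule.add_mem _ ha hb
  | smul c a _ ha => rw [smul_mul_assoc]; exact Submodule.smul_mem _ _ ha

/-- the ring `S` -/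
noncomputable def SS : Subalgebra k (Module.End k (NN R B n)) where
  carrier := {z | ∃ r : R, ∃ y ∈ II lam cf, z = lsm k R B n r + y}
  mul_mem' := by
    rintro _ _ ⟨r, y, hy, rfl⟩ ⟨r', y', hy', rfl⟩
    refine ⟨r * r', lsm k R B n r * y' + (y * lsm k R B n r' + y * y'),
      Submodule.add_mem _ (lsm_mul_mem lam cf r hy') (Submodule.add_mem _
        (mul_lsm_mem lam cf r' hy) (mul_mem_II lam cf hy hy')), ?_⟩
    rw [map_mul, add_mul, mul_add, mul_add, add_assoc]
  add_mem' := by
    rintro _ _ ⟨r, y, hy, rfl⟩ ⟨r', y', hy', rfl⟩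
    refine ⟨r + r', y + y', Submodule.add_mem _ hy hy', ?_⟩
    rw [map_add, add_add_add_comm]
  algebraMap_mem' := fun c => ⟨algebraMap k R c, 0, Submodule.zero_mem _, by
    rw [AlgHom.commutes, add_zero]⟩

lemma II_le (z : Module.End k (NN R B n)) (hz : z ∈ II lam cf) : z ∈ SS lam cf :=
  ⟨0, z, hz, by rw [map_zero, zero_add]⟩

/-- the inclusion of `R` -/
noncomputable def phi : R →ₐ[k] SS lam cf :=
  (lsm k R B n).codRestrict (SS lam cf) (fun r => ⟨r, 0, Submodule.zero_mem _, by rw [add_zero]⟩)

lemma phi_coe (r : R) : ((phi lam cf r : SS lam cf) : Module.End k (NN R B n)) = lsm k R B n r :=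
  rfl

end

/-- linear independence of coefficients -/
lemma li_coeff {ι X : Type} [AddCommGroup X] [Module k X] (c : ι → (B →₀ k))
    (hc : LinearIndependent k c) (s : Finset ι) (l : ι → X)
    (h : ∀ β, ∑ i ∈ s, c i β • l i = 0) : ∀ i ∈ s, l i = 0 := by
  intro i hi
  rw [← Module.forall_dual_apply_eq_zero_iff k]
  intro g
  refine linearIndependent_iff'.1 hc s (fun i => g (l i)) ?_ i hi
  ext β
  rw [Finsupp.finset_sum_apply, Finsupp.zero_apply]
  have := congrArg g (h β)
  rw [map_sum, map_zero] at this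
  rw [← this]
  refine Finset.sum_congr rfl fun j _ => ?_
  rw [Finsupp.smul_apply, map_smul, smul_eq_mul, smul_eq_mul, mul_comm]

variable (lam : Matrix (Fin m) (Fin n) R →ₗ[k] k) (cf : Matrix (Fin m) (Fin n) R →ₗ[k] (B →₀ k))

/-- **the leading coefficient argument** -/
theorem key {t : ℕ} {ι : Type} (w : Fin t → NN R B n) (y0 : List B)
    (hw : ∀ j u, w j u ≠ 0 → u.length ≤ y0.length) (h : ι → Fin t → Fin m → R)
    (hli : LinearIndependent k (fun i => cf (∑ j, vecMulVec (h i j) (w j y0))))
    (x : ι →₀ NN R B n) (r : Fin t → R)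
    (h0 : ∑ j, r j • w j + x.sum (fun i a => ∑ j, Phi lam cf a (h i j) (w j)) = 0) :
    x = 0 ∧ ∑ j, r j • w j y0 = 0 := by
  classical
  have hx : x = 0 := by
    by_contra hne
    set F : Finset (List B) := x.support.biUnion (fun i => (x i).support) with hF
    have hFn : F.Nonempty := by
      obtain ⟨i0, hi0⟩ := Finsupp.support_nonempty_iff.2 hne
      obtain ⟨u, hu⟩ := Finsupp.support_nonempty_iff.2 (Finsupp.mem_support_iff.1 hi0)
      exact ⟨u, Finset.mem_biUnion.2 ⟨i0, hi0, hu⟩⟩
    obtain ⟨x0, hx0, hmax⟩ := F.exists_max_image List.length hFn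
    obtain ⟨i0, hi0, hi0'⟩ := Finset.mem_biUnion.1 hx0
    have hb : ∀ i u, x i u ≠ 0 → u.length ≤ x0.length := fun i u hu =>
      hmax u (Finset.mem_biUnion.2 ⟨i, Finsupp.mem_support_iff.2 (by
        intro h; rw [h] at hu; exact hu rfl), Finsupp.mem_support_iff.2 hu⟩)
    have hz : ∀ i ∈ x.support, x i x0 = 0 := by
      refine li_coeff _ hli x.support (fun i => x i x0) fun β => ?_
      have e := DFunLike.congr_fun h0 (x0 ++ β :: y0)
      rw [Finsupp.add_apply, Finsupp.finset_sum_apply, Finsupp.sum, Finsupp.finset_sum_apply,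
        Finsupp.zero_apply] at e
      have e1 : ∑ j, (r j • w j) (x0 ++ β :: y0) = 0 := Finset.sum_eq_zero fun j _ => by
        rw [Finsupp.smul_apply]
        have h1 : w j (x0 ++ β :: y0) = 0 := by
          by_contra hh
          have := hw j _ hh
          simp only [List.length_append, List.length_cons] at this
          omega
        rw [h1, smul_zero]
      rw [e1, zero_add] at e
      rw [← e]
      refine Finset.sum_congr rfl fun i _ => ?_
      rw [Finsupp.finset_sum_apply, map_sum, Finsupp.finset_sum_apply, Finset.sum_smul]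
      refine Finset.sum_congr rfl fun j _ => ?_
      rw [Phi_top lam cf _ _ _ x0 y0 β (hb i) (hw j)]
    exact Finsupp.mem_support_iff.1 hi0' (hz i0 hi0)
  refine ⟨hx, ?_⟩
  rw [hx, Finsupp.sum_zero_index, add_zero] at h0
  have e := DFunLike.congr_fun h0 y0
  rw [Finsupp.finset_sum_apply, Finsupp.zero_apply] at e
  rw [← e]
  rfl

/-- top words of a nonzero family -/
theorem exists_top {t : ℕ} (w : Fin t → NN R B n) (hw : w ≠ 0) :
    ∃ y0 : List B, (∃ j, w j y0 ≠ 0) ∧ ∀ j u, w j u ≠ 0 → u.length ≤ y0.length := by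
  classical
  set F : Finset (List B) := Finset.univ.biUnion (fun j => (w j).support) with hF
  have hFn : F.Nonempty := by
    obtain ⟨j, hj⟩ := Function.ne_iff.1 hw
    obtain ⟨u, hu⟩ := Finsupp.support_nonempty_iff.2 hj
    exact ⟨u, Finset.mem_biUnion.2 ⟨j, Finset.mem_univ _, hu⟩⟩
  obtain ⟨y0, hy0, hmax⟩ := F.exists_max_image List.length hFn
  obtain ⟨j, -, hj⟩ := Finset.mem_biUnion.1 hy0
  exact ⟨y0, ⟨j, Finsupp.mem_support_iff.1 hj⟩, fun i u hu =>
    hmax u (Finset.mem_biUnion.2 ⟨i, Finset.mem_univ _, Finsupp.mem_support_iff.2 hu⟩)⟩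

/-- normal form of the elements of `II` -/
theorem II_normal {ι : Type} (b : Module.Basis ι k (Fin m → R)) (z : Module.End k (NN R B n))
    (hz : z ∈ II lam cf) :
    ∃ x : ι →₀ NN R B n, z = x.sum (fun i a => Phi lam cf a (b i)) := by
  have hle : II lam cf ≤ LinearMap.range
      (Finsupp.lsum k (fun i => PhiX (n := n) lam cf (b i)) :
        (ι →₀ NN R B n) →ₗ[k] Module.End k (NN R B n)) := by
    unfold II
    rw [Submodule.span_le]
    rintro _ ⟨x, q, rfl⟩
    refine ⟨Finsupp.mapRange (fun c : k => c • x) (zero_smul k x) (b.repr q), ?_⟩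
    rw [Finsupp.lsum_apply, Finsupp.sum_mapRange_index (fun i => map_zero _)]
    have e : PhiL lam cf x q = PhiL lam cf x ((b.repr q).sum (fun i c => c • b i)) := by
      congr 1
      have := b.linearCombination_repr q
      rw [Finsupp.linearCombination_apply] at this
      exact this.symm
    change _ = PhiL lam cf x q
    rw [e, map_finsuppSum]
    refine Finsupp.sum_congr fun i _ => ?_
    rw [map_smul, map_smul]
    rfl
  obtain ⟨x, rfl⟩ := hle hz
  exact ⟨x, rfl⟩

section domain

variable [IsDomain R] (A : Matrix (Fin m) (Fin n) R)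

/-- nonzero elements of `S` are injective -/
theorem inj_of_ne (hcf : ∀ M, cf M = 0 → ∃ c : k, M = c • A)
    (hA : ¬ ∃ (c : Fin m → R) (d : Fin n → R), A = vecMulVec c d)
    (z : Module.End k (NN R B n)) (hz : z ∈ SS lam cf) (w : NN R B n) (hw : w ≠ 0)
    (h0 : z w = 0) : z = 0 := by
  obtain ⟨r, y, hr, hzr⟩ := hz
  set b := Module.Basis.ofVectorSpace k (Fin m → R) with hb
  obtain ⟨x, hx⟩ := II_normal lam cf b _ hr
  obtain ⟨y0, ⟨j0, hj0⟩, hmax⟩ := exists_top (fun _ : Fin 1 => w) (by
    intro h; exact hw (congrFun h 0))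
  have hl0 : ∃ j, w y0 j ≠ 0 := Function.ne_iff.1 hj0
  obtain ⟨j1, hj1⟩ := hl0
  set T : (Fin m → R) →ₗ[k] (B →₀ k) := cf ∘ₗ
    { toFun := fun q => vecMulVec q (w y0)
      map_add' := fun a b => add_vecMulVec a b _
      map_smul' := fun c q => by ext i j; simp [vecMulVec_apply] } with hT
  have hker : LinearMap.ker T = ⊥ := by
    rw [LinearMap.ker_eq_bot']
    intro q hq
    obtain ⟨c, hc⟩ := hcf _ hq
    by_cases hc0 : c = 0
    · rw [hc0, zero_smul] at hc
      funext a
      have h1 := congrFun (congrFun hc a) j1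
      change q a * w y0 j1 = 0 at h1
      rcases mul_eq_zero.1 h1 with h | h
      · exact h
      · exact absurd h hj1
    · exfalso
      refine hA ⟨c⁻¹ • q, w y0, ?_⟩
      have h2 : A = c⁻¹ • (c • A) := by rw [smul_smul, inv_mul_cancel₀ hc0, one_smul]
      rw [h2, ← hc]
      ext i j
      simp [vecMulVec_apply]
  have hli : LinearIndependent k (fun i => cf (∑ _j : Fin 1, vecMulVec (b i) (w y0))) := by
    have h3 := b.linearIndependent.map' T hker
    have e : (fun i => cf (∑ _j : Fin 1, vecMulVec (b i) (w y0))) = ⇑T ∘ ⇑b := by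
      funext i
      simp [hT]
    rw [e]
    exact h3
  have hz' : z = lsm k R B n r + x.sum (fun i a => Phi lam cf a (b i)) := by
    rw [← hx, hzr]
  have h1 := key lam cf (fun _ : Fin 1 => w) y0 hmax (fun i _ => b i) hli x (fun _ => r) (by
    rw [hz', LinearMap.add_apply, lsm_apply] at h0
    simp only [Finset.univ_unique, Finset.sum_singleton]
    rw [← h0]
    congr 1
    rw [Finsupp.sum, Finsupp.sum, LinearMap.sum_apply])
  obtain ⟨hx0, hr0⟩ := h1
  simp only [Finset.univ_unique, Finset.sum_singleton] at hr0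
  have h4 := congrFun hr0 j1
  change r * w y0 j1 = 0 at h4
  have hr1 : r = 0 := by
    rcases mul_eq_zero.1 h4 with h | h
    · exact h
    · exact absurd h hj1
  rw [hz', hx0, hr1, map_zero, Finsupp.sum_zero_index, add_zero]

theorem isDomain_SS (hcf : ∀ M, cf M = 0 → ∃ c : k, M = c • A)
    (hA : ¬ ∃ (c : Fin m → R) (d : Fin n → R), A = vecMulVec c d) (hn : 0 < n) :
    IsDomain (SS lam cf) := by
  have hnt : Nontrivial (SS lam cf) := by
    refine ⟨0, 1, fun h => ?_⟩
    have h1 := congrArg (fun z : SS lam cf => (z : Module.End k (NN R B n))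
      (Finsupp.single [] (Pi.single ⟨0, hn⟩ 1))) h
    have h2 : (0 : NN R B n) = Finsupp.single [] (Pi.single ⟨0, hn⟩ 1) := h1
    have h3 := congrFun (DFunLike.congr_fun h2 []) ⟨0, hn⟩
    simp at h3
  have hnz : NoZeroDivisors (SS lam cf) := by
    refine ⟨fun {a b} hab => ?_⟩
    by_contra hcon
    push Not at hcon
    obtain ⟨ha, hb⟩ := hcon
    have hb' : (b : Module.End k (NN R B n)) ≠ 0 := fun h => hb (Subtype.ext h)
    obtain ⟨w, hw⟩ : ∃ w, (b : Module.End k (NN R B n)) w ≠ 0 := by
      by_contra hh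
      push Not at hh
      exact hb' (LinearMap.ext hh)
    have h1 : (a : Module.End k (NN R B n)) ((b : Module.End k (NN R B n)) w) = 0 := by
      have := congrArg (fun z : SS lam cf => (z : Module.End k (NN R B n)) w) hab
      exact this
    exact ha (Subtype.ext (inj_of_ne lam cf A hcf hA a a.2 _ hw h1))
  letI : Ring (SS lam cf) := Algebra.semiringToRing k
  exact @NoZeroDivisors.to_isDomain (SS lam cf) (Algebra.semiringToRing k) hnt hnz

omit [IsDomain R] in
theorem phi_injective (hn : 0 < n) : Function.Injective (phi lam cf) := by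
  rw [injective_iff_map_eq_zero]
  intro r hr
  have h1 := congrArg (fun z : SS lam cf => (z : Module.End k (NN R B n))
      (Finsupp.single [] (Pi.single ⟨0, hn⟩ 1))) hr
  have h2 : r • (Finsupp.single [] (Pi.single ⟨0, hn⟩ 1) : NN R B n) = 0 := h1
  have h3 := congrFun (DFunLike.congr_fun h2 []) ⟨0, hn⟩
  simpa using h3

end domain

end Pool.Agent.H516R3.NORE
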