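import Mathlib
import Pool.Agent.H516R3.NORE.Ring
import Pool.Agent.H354.NORE.Stmts

/-! The relations and the two idempotents of task E4 of `H354-NORE`. -/

set_option autoImplicit false

namespace Pool.Agent.H516R3.NORE

open Matrix H354P

variable {k R B : Type} [Field k] [Ring R] [Algebra k R] {m n : ℕ}

/-- a ring `S` of operators -/
structure Rep (lam : Matrix (Fin m) (Fin n) R →ₗ[k] k)
    (cf : Matrix (Fin m) (Fin n) R →ₗ[k] (B →₀ k)) (S : Type) [Ring S] [Algebra k S] where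
  ev : S →+* Module.End k (NN R B n)
  inj : Function.Injective ev
  φ : R →ₐ[k] S
  hφ : ∀ r, ev (φ r) = lsm k R B n r
  hS : ∀ z : S, ∃ r : R, ∃ y ∈ II lam cf, ev z = lsm k R B n r + y
  Ph : NN R B n → (Fin m → R) → S
  hPh : ∀ x q, ev (Ph x q) = Phi lam cf x q

section

variable {lam : Matrix (Fin m) (Fin n) R →ₗ[k] k}
  {cf : Matrix (Fin m) (Fin n) R →ₗ[k] (B →₀ k)} {S : Type} [Ring S] [Algebra k S]
  (ρ : Rep lam cf S)

lemma Ph_mul_phi (x : NN R B n) (q : Fin m → R) (r : R) :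
    ρ.Ph x q * ρ.φ r = ρ.Ph x (fun a => q a * r) := by
  apply ρ.inj
  rw [map_mul, ρ.hPh, ρ.hPh, ρ.hφ, Phi_mul_lsm]

lemma phi_mul_Ph (x : NN R B n) (q : Fin m → R) (r : R) :
    ρ.φ r * ρ.Ph x q = ρ.Ph (r • x) q := by
  apply ρ.inj
  rw [map_mul, ρ.hPh, ρ.hPh, ρ.hφ, lsm_mul_Phi]

lemma Ph_mul_Ph (x x' : NN R B n) (q q' : Fin m → R) :
    ρ.Ph x q * ρ.Ph x' q' = ρ.Ph (Phi lam cf x q x') q' := by
  apply ρ.inj
  rw [map_mul, ρ.hPh, ρ.hPh, ρ.hPh, Phi_mul_Phi]

lemma Ph_sum_right {ι : Type} (s : Finset ι) (x : NN R B n) (q : ι → Fin m → R) :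
    ∑ i ∈ s, ρ.Ph x (q i) = ρ.Ph x (∑ i ∈ s, q i) := by
  apply ρ.inj
  rw [map_sum, ρ.hPh]
  change _ = PhiL lam cf x (∑ i ∈ s, q i)
  rw [map_sum]
  exact Finset.sum_congr rfl fun i _ => ρ.hPh _ _

lemma Ph_sum_left {ι : Type} (s : Finset ι) (x : ι → NN R B n) (q : Fin m → R) :
    ∑ i ∈ s, ρ.Ph (x i) q = ρ.Ph (∑ i ∈ s, x i) q := by
  apply ρ.inj
  rw [map_sum, ρ.hPh]
  change _ = PhiX lam cf q (∑ i ∈ s, x i)
  rw [map_sum]
  exact Finset.sum_congr rfl fun i _ => ρ.hPh _ _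

lemma Ph_zero_right (x : NN R B n) : ρ.Ph x 0 = 0 := by
  apply ρ.inj
  rw [map_zero, ρ.hPh]
  exact map_zero (PhiL lam cf x)

lemma Ph_zero_left (q : Fin m → R) : ρ.Ph 0 q = 0 := by
  apply ρ.inj
  rw [map_zero, ρ.hPh]
  exact map_zero (PhiX (n := n) lam cf q)

variable (e : Matrix (Fin m) (Fin m) R) (f : Matrix (Fin n) (Fin n) R)
  (A : Matrix (Fin m) (Fin n) R)

/-- the row `x ⊗ (1 - e)` -/
noncomputable def psi (x : NN R B n) : Fin m → S := fun q => ρ.Ph x (fun a => (1 - e) a q)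

/-- the generic partial inverse -/
noncomputable def sm : Matrix (Fin n) (Fin m) S :=
  Matrix.of (fun p => psi ρ e (Finsupp.single [] ((1 - f) p)))

lemma psi_vecMul {t : ℕ} (x : NN R B n) (H : Matrix (Fin m) (Fin t) R) :
    psi ρ e x ᵥ* H.map ρ.φ =
      fun j => ρ.Ph x (fun a => ((1 - e) * H : Matrix (Fin m) (Fin t) R) a j) := by
  funext j
  simp only [Matrix.vecMul, dotProduct, psi, Matrix.map_apply, Ph_mul_phi]
  rw [Ph_sum_right]
  congr 1
  funext a
  rw [Finset.sum_apply, Matrix.mul_apply]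

lemma sum_vecMulVec {t : ℕ} (H : Matrix (Fin m) (Fin t) R) (W : Matrix (Fin t) (Fin n) R) :
    ∑ j, vecMulVec (fun a => H a j) (W j) = H * W := by
  ext a b
  rw [Matrix.sum_apply, Matrix.mul_apply]
  rfl

lemma shift_nil (x : NN R B n) : shift k R n [] x = x := by
  induction x using Finsupp.induction_linear with
  | zero => simp
  | add f g hf hg => rw [map_add, hf, hg]
  | single a b => rw [shift_single, List.append_nil]

/-- `x A s = x` -/
lemma psi_A_s (hlam : lam A = 1) (hcf : cf A = 0) (heA : e * A = 0) (hAf : A * f = 0)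
    (x : NN R B n) : (psi ρ e x ᵥ* A.map ρ.φ) ᵥ* sm ρ e f = psi ρ e x := by
  rw [psi_vecMul]
  have e1 : (1 - e) * A = A := by rw [Matrix.sub_mul, Matrix.one_mul, heA, sub_zero]
  rw [e1]
  funext q
  simp only [Matrix.vecMul, dotProduct, sm, Matrix.of_apply, psi, Ph_mul_Ph]
  rw [Ph_sum_left]
  congr 1
  have e2 : ∀ i : Fin n, Phi lam cf x (fun a => A a i) (Finsupp.single [] ((1 - f) i)) =
      E lam cf x (vecMulVec (fun a => A a i) ((1 - f) i)) := by
    intro i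
    rw [Phi_single, shift_nil]
  rw [Finset.sum_congr rfl fun i _ => e2 i, ← map_sum, sum_vecMulVec, Matrix.mul_sub, Matrix.mul_one, hAf,
    sub_zero, E_apply, hlam, hcf, one_smul, Finsupp.sum_zero_index, add_zero]

lemma s_A_s (hlam : lam A = 1) (hcf : cf A = 0) (heA : e * A = 0) (hAf : A * f = 0) :
    sm ρ e f * A.map ρ.φ * sm ρ e f = sm ρ e f := by
  funext p
  rw [Matrix.mul_apply_eq_vecMul, Matrix.mul_apply_eq_vecMul]
  exact psi_A_s ρ e f A hlam hcf heA hAf _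

lemma psi_e (hee : e * e = e) (x : NN R B n) : psi ρ e x ᵥ* e.map ρ.φ = 0 := by
  rw [psi_vecMul]
  have e1 : (1 - e) * e = 0 := by rw [sub_mul, one_mul, hee, sub_self]
  rw [e1]
  funext j
  exact Ph_zero_right ρ x

lemma s_e (hee : e * e = e) : sm ρ e f * e.map ρ.φ = 0 := by
  funext p
  rw [Matrix.mul_apply_eq_vecMul]
  exact psi_e ρ e hee _

lemma f_s (hff : f * f = f) : f.map ρ.φ * sm ρ e f = 0 := by
  ext i q
  rw [Matrix.mul_apply]
  simp only [Matrix.map_apply, sm, Matrix.of_apply, psi, phi_mul_Ph]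
  rw [Ph_sum_left]
  have e0 : ∀ j, f i j • (Finsupp.single [] ((1 - f : Matrix (Fin n) (Fin n) R) j) : NN R B n) =
      Finsupp.singleAddHom [] (f i j • (1 - f : Matrix (Fin n) (Fin n) R) j) := fun j => by
    rw [Finsupp.smul_single]; rfl
  have e2 : ∑ j, f i j • (1 - f : Matrix (Fin n) (Fin n) R) j = 0 := by
    have e3 : ∑ j, f i j • (1 - f : Matrix (Fin n) (Fin n) R) j =
        (f * (1 - f) : Matrix (Fin n) (Fin n) R) i := by
      funext b
      rw [Finset.sum_apply, Matrix.mul_apply]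
      rfl
    rw [e3, mul_sub, mul_one, hff, sub_self]
    rfl
  have e1 : ∑ j, f i j • (Finsupp.single [] ((1 - f : Matrix (Fin n) (Fin n) R) j) : NN R B n) = 0 := by
    rw [Finset.sum_congr rfl fun j _ => e0 j, ← map_sum, e2, map_zero]
  rw [e1]
  exact Ph_zero_left ρ _

/-- evaluation of `s C v` at top words -/
lemma top_eval {t : ℕ} (C : Matrix (Fin m) (Fin t) R) (heC : e * C = 0) (v : Fin t → S)
    (n0 : NN R B n) (y0 : List B) (hw : ∀ j u, ρ.ev (v j) n0 u ≠ 0 → u.length ≤ y0.length)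
    (p : Fin n) (β : B) :
    ρ.ev ((sm ρ e f *ᵥ (C.map ρ.φ *ᵥ v)) p) n0 (β :: y0) =
      cf (C * Matrix.of (fun j => ρ.ev (v j) n0 y0)) β • (1 - f) p := by
  set w' : Fin m → NN R B n := fun q => ρ.ev ((C.map ρ.φ *ᵥ v) q) n0 with hw'
  have ew : ∀ q u, w' q u = ∑ j, C q j • ρ.ev (v j) n0 u := by
    intro q u
    rw [hw']
    simp only [Matrix.mulVec, dotProduct, Matrix.map_apply, map_sum, map_mul, ρ.hφ]
    rw [LinearMap.sum_apply, Finsupp.finset_sum_apply]
    rfl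
  have hb : ∀ q u, w' q u ≠ 0 → u.length ≤ y0.length := by
    intro q u hu
    rw [ew] at hu
    obtain ⟨j, -, hj⟩ := Finset.exists_ne_zero_of_sum_ne_zero hu
    refine hw j u fun h => hj ?_
    rw [h, smul_zero]
  have e1 : ρ.ev ((sm ρ e f *ᵥ (C.map ρ.φ *ᵥ v)) p) n0 =
      ∑ q, Phi lam cf (Finsupp.single [] ((1 - f) p)) (fun a => (1 - e) a q) (w' q) := by
    conv_lhs => rw [Matrix.mulVec, dotProduct]
    rw [map_sum, LinearMap.sum_apply]
    refine Finset.sum_congr rfl fun q _ => ?_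
    rw [map_mul]
    change (ρ.ev (ρ.Ph _ _)) _ = _
    rw [ρ.hPh]
  rw [e1, Finsupp.finset_sum_apply]
  have e2 : ∀ q, Phi lam cf (Finsupp.single [] ((1 - f) p)) (fun a => (1 - e) a q) (w' q)
      (β :: y0) = cf (vecMulVec (fun a => (1 - e) a q) (w' q y0)) β • (1 - f) p := by
    intro q
    have h := Phi_top lam cf (Finsupp.single [] ((1 - f) p)) (w' q) (fun a => (1 - e) a q) [] y0 β
      (fun u hu => by
        by_contra hl
        refine hu (Finsupp.single_eq_of_ne ?_)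
        rintro rfl
        simp at hl) (hb q)
    rw [List.nil_append, Finsupp.single_eq_same] at h
    exact h
  rw [Finset.sum_congr rfl fun q _ => e2 q, ← Finset.sum_smul, ← Finsupp.finset_sum_apply,
    ← map_sum]
  congr 3
  have e3 := sum_vecMulVec (1 - e) (Matrix.of (fun q => w' q y0))
  have e4 : (Matrix.of (fun q => w' q y0) : Matrix (Fin m) (Fin n) R) =
      C * Matrix.of (fun j => ρ.ev (v j) n0 y0) := by
    ext q b
    rw [Matrix.of_apply, ew, Finset.sum_apply, Matrix.mul_apply]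
    rfl
  refine e3.trans ?_
  rw [e4, ← Matrix.mul_assoc, Matrix.sub_mul, Matrix.one_mul, heC, sub_zero]

end

end Pool.Agent.H516R3.NORE
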