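import Mathlib
import Pool.Agent.H516R3.NORE.Rel

/-! `DomLike` for the two idempotents of task E4 of `H354-NORE`. -/

set_option autoImplicit false

namespace Pool.Agent.H516R3.NORE

open Matrix H354P

variable {k R B : Type} [Field k] [Ring R] [Algebra k R] {m n : ℕ}

section

variable {lam : Matrix (Fin m) (Fin n) R →ₗ[k] k}
  {cf : Matrix (Fin m) (Fin n) R →ₗ[k] (B →₀ k)}

/-- right multiplication as a `k`-linear map -/
def mulR {t u : ℕ} (K : Matrix (Fin t) (Fin u) R) :
    Matrix (Fin m) (Fin t) R →ₗ[k] Matrix (Fin m) (Fin u) R where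
  toFun h := h * K
  map_add' a b := Matrix.add_mul a b K
  map_smul' c a := Matrix.smul_mul c a K

/-- a family adapted to `K` and `C` -/
theorem exists_family {t : ℕ} (g : Matrix (Fin t) (Fin t) R) (K : Matrix (Fin t) (Fin n) R)
    (C : Matrix (Fin m) (Fin t) R)
    (h1 : ∀ h : Matrix (Fin m) (Fin t) R, h * g = 0 → cf (h * K) = 0 → ∃ c : k, h = c • C) :
    ∃ (ι : Type) (γ : ι → Matrix (Fin m) (Fin t) R),
      LinearIndependent k (fun i => cf (γ i * K)) ∧
      ∀ h : Matrix (Fin m) (Fin t) R, h * g = 0 → ∃ (c : k) (a : ι →₀ k),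
        h = c • C + a.sum (fun i c => c • γ i) := by
  classical
  set G : Submodule k (Matrix (Fin m) (Fin t) R) := LinearMap.ker (mulR (k := k) g) with hG
  set κ : G →ₗ[k] (B →₀ k) := (cf ∘ₗ mulR (k := k) K) ∘ₗ G.subtype with hκ
  have hκa : ∀ h : G, κ h = cf ((h : Matrix (Fin m) (Fin t) R) * K) := fun h => rfl
  let b := Module.Basis.ofVectorSpace k (LinearMap.range κ)
  have hb : ∀ i, ∃ y : G, κ y = (b i : B →₀ k) := fun i => (b i).2
  choose γ hγ using hb
  refine ⟨_, fun i => (γ i : Matrix (Fin m) (Fin t) R), ?_, ?_⟩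
  · have h3 := b.linearIndependent.map' (LinearMap.range κ).subtype (Submodule.ker_subtype _)
    have e : (fun i => cf ((γ i : Matrix (Fin m) (Fin t) R) * K)) =
        ⇑(LinearMap.range κ).subtype ∘ ⇑b := by
      funext i
      rw [← hκa, hγ]
      rfl
    rw [e]
    exact h3
  · intro h hh
    set h' : G := ⟨h, hh⟩ with hh'
    set a := b.repr ⟨κ h', h', rfl⟩ with ha
    have e1 : κ h' = κ (a.sum (fun i c => c • γ i)) := by
      rw [map_finsuppSum]
      have e2 := b.linearCombination_repr ⟨κ h', h', rfl⟩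
      rw [Finsupp.linearCombination_apply] at e2
      have e3 := congrArg (LinearMap.range κ).subtype e2
      rw [map_finsuppSum] at e3
      refine Eq.trans e3.symm ?_
      refine Finsupp.sum_congr fun i _ => ?_
      rw [map_smul, map_smul, hγ]
      rfl
    obtain ⟨c, hc⟩ := h1 ((h' - a.sum (fun i c => c • γ i) : G) : Matrix (Fin m) (Fin t) R)
      (h' - a.sum (fun i c => c • γ i) : G).2 (by
        rw [← hκa, map_sub, e1, sub_self])
    refine ⟨c, a, ?_⟩
    rw [← hc]
    have e4 : ((a.sum (fun i c => c • γ i) : G) : Matrix (Fin m) (Fin t) R) =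
        a.sum (fun i c => c • (γ i : Matrix (Fin m) (Fin t) R)) := by
      have := map_finsuppSum G.subtype a (fun i c => c • γ i)
      exact this
    rw [← e4]
    change h = (h - _) + _
    rw [sub_add_cancel]

variable (lam cf) in
/-- row operators with zero product with `g` -/
noncomputable def Zspan {t : ℕ} (g : Matrix (Fin t) (Fin t) R) :
    Submodule k (Fin t → Module.End k (NN R B n)) :=
  Submodule.span k {z | ∃ (x : NN R B n) (H : Matrix (Fin m) (Fin t) R), H * g = 0 ∧
    z = fun j => Phi lam cf x (fun a => H a j)}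

theorem Zspan_normal {t : ℕ} (g : Matrix (Fin t) (Fin t) R) (C : Matrix (Fin m) (Fin t) R)
    {ι : Type} (γ : ι → Matrix (Fin m) (Fin t) R)
    (hγ : ∀ h : Matrix (Fin m) (Fin t) R, h * g = 0 → ∃ (c : k) (a : ι →₀ k),
        h = c • C + a.sum (fun i c => c • γ i))
    (z : Fin t → Module.End k (NN R B n)) (hz : z ∈ Zspan lam cf g) :
    ∃ (x0 : NN R B n) (x : ι →₀ NN R B n), ∀ j, z j = Phi lam cf x0 (fun a => C a j) +
      x.sum (fun i y => Phi lam cf y (fun a => γ i a j)) := by
  classical
  let Θ : (NN R B n × (ι →₀ NN R B n)) →ₗ[k] (Fin t → Module.End k (NN R B n)) :=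
    LinearMap.pi (fun j => (PhiX (n := n) lam cf (fun a => C a j)) ∘ₗ LinearMap.fst k _ _ +
      (Finsupp.lsum k (fun i => PhiX (n := n) lam cf (fun a => γ i a j))) ∘ₗ LinearMap.snd k _ _)
  have hle : Zspan lam cf g ≤ LinearMap.range Θ := by
    unfold Zspan
    rw [Submodule.span_le]
    rintro _ ⟨x, H, hH, rfl⟩
    obtain ⟨c, a, rfl⟩ := hγ H hH
    refine ⟨(c • x, Finsupp.mapRange (fun c : k => c • x) (zero_smul k x) a), ?_⟩
    funext j
    change PhiX lam cf (fun a => C a j) (c • x) +
      Finsupp.lsum k (fun i => PhiX (n := n) lam cf (fun a => γ i a j))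
        (Finsupp.mapRange (fun c : k => c • x) (zero_smul k x) a) =
      PhiL lam cf x (fun a' => (c • C + a.sum (fun i c => c • γ i)) a' j)
    rw [Finsupp.lsum_apply, Finsupp.sum_mapRange_index (fun i => map_zero _)]
    have e1 : (fun a' => (c • C + a.sum (fun i c => c • γ i)) a' j) =
        c • (fun a' => C a' j) + a.sum (fun i c => c • (fun a' => γ i a' j)) := by
      funext a'
      rw [Matrix.add_apply, Matrix.smul_apply, Pi.add_apply, Pi.smul_apply]
      congr 1
      rw [Finsupp.sum, Finsupp.sum, Matrix.sum_apply, Finset.sum_apply]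
      rfl
    rw [e1, map_add, map_finsuppSum, map_smul, map_smul]
    congr 1
    refine Finsupp.sum_congr fun i _ => ?_
    rw [map_smul, map_smul]
    rfl
  obtain ⟨⟨x0, x⟩, hx⟩ := hle hz
  refine ⟨x0, x, fun j => ?_⟩
  rw [← hx]
  rfl

theorem mem_Zspan {t : ℕ} (g : Matrix (Fin t) (Fin t) R) (hg : g * g = g)
    (z : Fin t → Module.End k (NN R B n)) (hz : ∀ j, z j ∈ II lam cf) :
    (fun j => ∑ a, z a * lsm k R B n ((1 - g) a j)) ∈ Zspan lam cf g := by
  have e : (fun j => ∑ a, z a * lsm k R B n ((1 - g) a j)) =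
      ∑ a, (fun j => z a * lsm k R B n ((1 - g) a j)) := by
    funext j
    rw [Finset.sum_apply]
  rw [e]
  refine Submodule.sum_mem _ fun a _ => ?_
  have h1 := hz a
  generalize z a = y at h1
  unfold II at h1
  induction h1 using Submodule.span_induction with
  | mem y h =>
    obtain ⟨x, q, rfl⟩ := h
    refine Submodule.subset_span ⟨x, vecMulVec q ((1 - g) a), ?_, ?_⟩
    · have h2 : (1 - g) * g = 0 := by rw [sub_mul, one_mul, hg, sub_self]
      ext i j
      rw [Matrix.mul_apply]
      simp only [vecMulVec_apply, mul_assoc]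
      rw [← Finset.mul_sum]
      have h3 := congrFun (congrFun h2 a) j
      rw [Matrix.mul_apply] at h3
      rw [h3]
      simp
    · funext j
      rw [Phi_mul_lsm]
      rfl
  | zero =>
    convert Submodule.zero_mem (Zspan lam cf g) using 1
    funext j
    exact zero_mul _
  | add u v _ _ hu hv =>
    convert Submodule.add_mem _ hu hv using 1
    funext j
    exact add_mul _ _ _
  | smul c u _ hu =>
    convert Submodule.smul_mem _ c hu using 1
    funext j
    exact smul_mul_assoc _ _ _

end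

section

variable {lam : Matrix (Fin m) (Fin n) R →ₗ[k] k}
  {cf : Matrix (Fin m) (Fin n) R →ₗ[k] (B →₀ k)} {S : Type} [Ring S] [Algebra k S]
  (ρ : Rep lam cf S)
  (e : Matrix (Fin m) (Fin m) R) (f : Matrix (Fin n) (Fin n) R)
  (A : Matrix (Fin m) (Fin n) R)

/-- **the idempotent `1 - g - K s C`** -/
theorem domLike (hlam : lam A = 1) (hcf : cf A = 0) (heA : e * A = 0) (hAf : A * f = 0)
    (hcf' : ∀ M, cf M = 0 → ∃ c : k, M = c • A) [IsDomain R]
    (hA : ¬ ∃ (c : Fin m → R) (d : Fin n → R), A = vecMulVec c d)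
    {t : ℕ} (g : Matrix (Fin t) (Fin t) R) (K : Matrix (Fin t) (Fin n) R)
    (C : Matrix (Fin m) (Fin t) R) (hg : g * g = g) (hgK : g * K = 0) (hKf : K * f = 0)
    (heC : e * C = 0) (hCg : C * g = 0) (hCK : C * K = A)
    (h1 : ∀ h : Matrix (Fin m) (Fin t) R, h * g = 0 → cf (h * K) = 0 → ∃ c : k, h = c • C)
    (h2 : ∀ r : Fin t → R, r ᵥ* g = 0 → r ᵥ* K = 0 → r = 0)
    (h3 : ∀ W : Matrix (Fin t) (Fin n) R, g * W = 0 → cf (C * W) = 0 → ∃ c : k, W = c • K) :
    DomLike (1 - g.map ρ.φ - K.map ρ.φ * sm ρ e f * C.map ρ.φ) := by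
  classical
  set s := sm ρ e f with hs
  set G := g.map ρ.φ with hG
  set K' := K.map ρ.φ with hK'
  set C' := C.map ρ.φ with hC'
  have hGG : G * G = G := by rw [hG, ← Matrix.map_mul, hg]
  have hGK : G * K' = 0 := by rw [hG, hK', ← Matrix.map_mul, hgK]; ext; simp
  have hCG : C' * G = 0 := by rw [hG, hC', ← Matrix.map_mul, hCg]; ext; simp
  have hCK' : C' * K' = A.map ρ.φ := by rw [hK', hC', ← Matrix.map_mul, hCK]
  have hsAs : s * A.map ρ.φ * s = s := s_A_s ρ e f A hlam hcf heA hAf
  have hX : K' * s * C' * (K' * s * C') = K' * s * C' := by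
    calc K' * s * C' * (K' * s * C') = K' * (s * (C' * K') * s) * C' := by
          simp only [Matrix.mul_assoc]
      _ = _ := by rw [hCK', hsAs]
  have hGX : G * (K' * s * C') = 0 := by
    rw [← Matrix.mul_assoc, ← Matrix.mul_assoc, hGK, Matrix.zero_mul, Matrix.zero_mul]
  have hXG : K' * s * C' * G = 0 := by rw [Matrix.mul_assoc, hCG, Matrix.mul_zero]
  set p := 1 - G - K' * s * C' with hp
  have hsCX : s * C' * (K' * s * C') = s * C' := by
    calc s * C' * (K' * s * C') = (s * (C' * K') * s) * C' := by simp only [Matrix.mul_assoc]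
      _ = _ := by rw [hCK', hsAs]
  have hGp : G * p = 0 := by
    rw [hp, mul_sub, mul_sub, mul_one, hGG, hGX, sub_self, sub_zero]
  have hsCp : s * C' * p = 0 := by
    rw [hp, Matrix.mul_sub, Matrix.mul_sub, Matrix.mul_one, hsCX, Matrix.mul_assoc, hCG,
      Matrix.mul_zero, sub_zero, sub_self]
  have hpp : p * p = p := by
    have e1 : p * p = p - G * p - K' * s * C' * p := by
      calc p * p = (1 - G - K' * s * C') * p := rfl
        _ = _ := by rw [sub_mul, sub_mul, one_mul]
    have e2 : K' * s * C' * p = K' * (s * C' * p) := by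
      rw [Matrix.mul_assoc K' s C', Matrix.mul_assoc]
    rw [e1, e2, hGp, hsCp, Matrix.mul_zero, sub_zero, sub_zero]
  -- K is nonzero
  have hK0 : K ≠ 0 := by
    rintro h
    refine hA ⟨0, 0, ?_⟩
    rw [← hCK, h, Matrix.mul_zero]
    ext; simp
  have hF0 : ∃ p0, (1 - f : Matrix (Fin n) (Fin n) R) p0 ≠ 0 := by
    by_contra hcon
    push Not at hcon
    refine hK0 ?_
    have h4 : (1 - f : Matrix (Fin n) (Fin n) R) = 0 := by
      ext i j; rw [hcon]; rfl
    have h5 : K * (1 - f) = K := by rw [Matrix.mul_sub, Matrix.mul_one, hKf, sub_zero]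
    rw [← h5, h4, Matrix.mul_zero]
  obtain ⟨p0, hp0⟩ := hF0
  -- the top coefficient of a vector killed by `s C`
  have htop : ∀ (v : Fin t → S) (n0 : NN R B n) (y0 : List B),
      (∀ j u, ρ.ev (v j) n0 u ≠ 0 → u.length ≤ y0.length) → s *ᵥ (C' *ᵥ v) = 0 →
      cf (C * Matrix.of (fun j => ρ.ev (v j) n0 y0)) = 0 := by
    intro v n0 y0 hb hv
    ext β
    have h4 := top_eval ρ e f C heC v n0 y0 hb p0 β
    rw [← hs, ← hC', hv] at h4
    have h5 : cf (C * Matrix.of (fun j => ρ.ev (v j) n0 y0)) β •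
        (1 - f : Matrix (Fin n) (Fin n) R) p0 = 0 := by
      rw [← h4]
      simp
    rcases smul_eq_zero.1 h5 with h | h
    · exact h
    · exact absurd h hp0
  refine ⟨hpp, ?_, ?_⟩
  · -- p ≠ 0
    intro hp00
    obtain ⟨i0, j0, hij⟩ : ∃ i j, K i j ≠ 0 := by
      by_contra hcon
      push Not at hcon
      exact hK0 (by ext i j; exact hcon i j)
    set v : Fin t → S := fun j => ρ.φ (K j j0) with hv
    set n0 : NN R B n := Finsupp.single [] (K i0) with hn0
    have hevn : ∀ j, ρ.ev (v j) n0 = Finsupp.single [] (K j j0 • K i0) := by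
      intro j
      rw [hv, ρ.hφ, lsm_apply, hn0, Finsupp.smul_single]
    have hb : ∀ j u, ρ.ev (v j) n0 u ≠ 0 → u.length ≤ ([] : List B).length := by
      intro j u hu
      rw [hevn] at hu
      by_contra hl
      refine hu (Finsupp.single_eq_of_ne ?_)
      rintro rfl
      simp at hl
    have hgv : G *ᵥ v = 0 := by
      funext i
      rw [hv, hG, Matrix.mulVec, dotProduct]
      simp only [Matrix.map_apply, ← map_mul, ← map_sum]
      have h4 := congrFun (congrFun hgK i) j0
      rw [Matrix.mul_apply] at h4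
      rw [h4]
      simp
    -- evaluate at [β]
    have hpv : v = K' *ᵥ (s *ᵥ (C' *ᵥ v)) := by
      have h4 : p *ᵥ v = 0 := by rw [hp00, Matrix.zero_mulVec]
      rw [hp, Matrix.sub_mulVec, Matrix.sub_mulVec, Matrix.one_mulVec, hgv, sub_zero,
        sub_eq_zero] at h4
      rw [Matrix.mulVec_mulVec, Matrix.mulVec_mulVec]
      exact h4
    have hcW : cf (C * Matrix.of (fun j => ρ.ev (v j) n0 [])) = 0 := by
      ext β
      have h4 : ∀ j, (0 : Fin n → R) = cf (C * Matrix.of (fun j => ρ.ev (v j) n0 [])) β • K j := by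
        intro j
        have h5 : ρ.ev (v j) n0 [β] = ρ.ev ((K' *ᵥ (s *ᵥ (C' *ᵥ v))) j) n0 [β] := by
          rw [← hpv]
        rw [hevn, Finsupp.single_eq_of_ne (by simp)] at h5
        rw [h5]
        conv_lhs => rw [Matrix.mulVec, dotProduct]
        rw [map_sum, LinearMap.sum_apply, Finsupp.finset_sum_apply]
        have h6 : ∀ i, ρ.ev (K' j i * (s *ᵥ (C' *ᵥ v)) i) n0 [β] =
            cf (C * Matrix.of (fun j => ρ.ev (v j) n0 [])) β •
              (K j i • (1 - f : Matrix (Fin n) (Fin n) R) i) := by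
          intro i
          rw [map_mul]
          change (ρ.ev (ρ.φ (K j i)) (ρ.ev ((s *ᵥ (C' *ᵥ v)) i) n0)) [β] = _
          rw [ρ.hφ, lsm_apply, Finsupp.smul_apply,
            show ([β] : List B) = β :: [] from rfl, top_eval ρ e f C heC v n0 [] hb i β, smul_comm]
        rw [Finset.sum_congr rfl fun i _ => h6 i, ← Finset.smul_sum]
        congr 1
        have h7 : K * (1 - f) = K := by rw [Matrix.mul_sub, Matrix.mul_one, hKf, sub_zero]
        conv_rhs => rw [← h7]
        funext b
        rw [Finset.sum_apply, Matrix.mul_apply]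
        rfl
      rcases smul_eq_zero.1 (h4 i0).symm with h | h
      · exact h
      · exact absurd (congrFun h j0) hij
    have hW : (Matrix.of (fun j => ρ.ev (v j) n0 []) : Matrix (Fin t) (Fin n) R) =
        vecMulVec (fun j => K j j0) (K i0) := by
      ext i j
      rw [Matrix.of_apply, hevn, Finsupp.single_eq_same]
      rfl
    rw [hW] at hcW
    obtain ⟨c, hc⟩ := h3 _ (by
      ext i j
      rw [Matrix.mul_apply]
      simp only [vecMulVec_apply, ← mul_assoc]
      rw [← Finset.sum_mul]
      have h4 := congrFun (congrFun hgK i) j0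
      rw [Matrix.mul_apply] at h4
      rw [h4]
      simp) hcW
    have hc0 : c ≠ 0 := by
      rintro rfl
      rw [zero_smul] at hc
      have h4 := congrFun (congrFun hc i0) j0
      rw [vecMulVec_apply] at h4
      rcases mul_eq_zero.1 h4 with h | h
      · exact hij h
      · exact hij h
    refine hA ⟨c⁻¹ • (C *ᵥ (fun j => K j j0)), K i0, ?_⟩
    have h5 : A = c⁻¹ • (C * (c • K)) := by
      rw [Matrix.mul_smul, smul_smul, inv_mul_cancel₀ hc0, one_smul, hCK]
    rw [h5, ← hc]
    ext i j
    rw [Matrix.smul_apply, Matrix.mul_apply, vecMulVec_apply, Pi.smul_apply, Matrix.mulVec,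
      dotProduct]
    simp only [vecMulVec_apply, ← mul_assoc]
    rw [← Finset.sum_mul, smul_mul_assoc]
  · -- no zero divisors
    intro r v hr hv hrv
    by_contra hcon
    push Not at hcon
    obtain ⟨hr0, hv0⟩ := hcon
    obtain ⟨j1, hj1⟩ := Function.ne_iff.1 hv0
    obtain ⟨n0, hn0⟩ : ∃ n0, ρ.ev (v j1) n0 ≠ 0 := by
      by_contra hh
      push Not at hh
      refine hj1 (ρ.inj ?_)
      rw [Pi.zero_apply, map_zero]
      exact LinearMap.ext hh
    set w : Fin t → NN R B n := fun j => ρ.ev (v j) n0 with hw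
    have hw0 : w ≠ 0 := fun h => hn0 (congrFun h j1)
    obtain ⟨y0, ⟨j2, hj2⟩, hb⟩ := exists_top w hw0
    have hGv : G *ᵥ v = 0 := by
      rw [← hv, Matrix.mulVec_mulVec, hGp, Matrix.zero_mulVec]
    have hsCv : s *ᵥ (C' *ᵥ v) = 0 := by
      rw [← hv, Matrix.mulVec_mulVec, Matrix.mulVec_mulVec, hsCp, Matrix.zero_mulVec]
    have hcf0 := htop v n0 y0 hb hsCv
    obtain ⟨c, hc⟩ := h3 (Matrix.of (fun j => ρ.ev (v j) n0 y0)) (by
      ext i b
      have h4 := congrArg (fun z => ρ.ev z n0 y0 b) (congrFun hGv i)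
      simp only [Matrix.mulVec, dotProduct, hG, Matrix.map_apply, map_sum, map_mul, ρ.hφ,
        Pi.zero_apply, map_zero] at h4
      rw [LinearMap.sum_apply, Finsupp.finset_sum_apply, Finset.sum_apply] at h4
      rw [Matrix.mul_apply]
      exact h4) hcf0
    have hc0 : c ≠ 0 := by
      rintro rfl
      rw [zero_smul] at hc
      exact hj2 (congrFun hc j2)
    obtain ⟨ι, γ, hli, hγ⟩ := exists_family g K C h1
    choose r0 z0 hz0 hrz using fun j => ρ.hS (r j)
    obtain ⟨x0, x, hx⟩ := Zspan_normal g C γ hγ _ (mem_Zspan g hg z0 hz0)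
    set r' : Fin t → S := r ᵥ* (1 - g).map ρ.φ with hr'
    have hev : ∀ j, ρ.ev (r' j) = lsm k R B n ((r0 ᵥ* (1 - g)) j) +
        (Phi lam cf x0 (fun a => C a j) + x.sum (fun i y => Phi lam cf y (fun a => γ i a j))) := by
      intro j
      rw [← hx]
      rw [hr']
      simp only [Matrix.vecMul, dotProduct, Matrix.map_apply, map_sum, map_mul, ρ.hφ, hrz,
        add_mul]
      rw [Finset.sum_add_distrib]
    have hmap1 : (1 - g).map ρ.φ = 1 - G := by
      rw [hG]
      ext i j
      rw [Matrix.map_apply, Matrix.sub_apply, Matrix.sub_apply, map_sub, Matrix.map_apply]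
      congr 1
      by_cases h : i = j
      · subst h; simp
      · simp [Matrix.one_apply_ne h]
    have hr'v : r' ⬝ᵥ v = 0 := by
      rw [hr', hmap1, ← Matrix.dotProduct_mulVec, Matrix.sub_mulVec, Matrix.one_mulVec, hGv,
        sub_zero, hrv]
    have hmid : ∑ j, Phi lam cf x0 (fun a => C a j) (w j) = 0 := by
      have h4 : (psi ρ e x0 ᵥ* C') ⬝ᵥ v = 0 := by
        rw [← Matrix.dotProduct_mulVec, ← psi_A_s ρ e f A hlam hcf heA hAf x0, ← hs,
          ← Matrix.dotProduct_mulVec, hsCv]
        simp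
      rw [hC', psi_vecMul] at h4
      have h5 := congrArg (fun z => ρ.ev z n0) h4
      simp only [dotProduct, map_sum, map_mul, ρ.hPh, map_zero] at h5
      rw [LinearMap.sum_apply] at h5
      have h6 : (1 - e) * C = C := by rw [Matrix.sub_mul, Matrix.one_mul, heC, sub_zero]
      rw [h6] at h5
      exact h5
    have hkey := key lam cf w y0 hb (fun i j a => γ i a j) (by
      have h4 : (fun i => cf (∑ j, vecMulVec (fun a => γ i a j) (w j y0))) =
          fun i => (Units.mk0 c hc0) • cf (γ i * K) := by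
        funext i
        have h5 := sum_vecMulVec (γ i) (Matrix.of (fun j => w j y0))
        have h6 : (∑ j, vecMulVec (fun a => γ i a j) (w j y0)) =
            γ i * Matrix.of (fun j => w j y0) := h5
        rw [h6, show (Matrix.of (fun j => w j y0) : Matrix (Fin t) (Fin n) R) = c • K from hc,
          Matrix.mul_smul, map_smul]
        rfl
      rw [h4]
      exact hli.units_smul (fun _ => Units.mk0 c hc0)) x (r0 ᵥ* (1 - g)) (by
      have h4 := congrArg (fun z => ρ.ev z n0) hr'v
      simp only [dotProduct, map_sum, map_mul, map_zero] at h4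
      rw [LinearMap.sum_apply] at h4
      have h5 : ∀ j, (ρ.ev (r' j) * ρ.ev (v j)) n0 = (r0 ᵥ* (1 - g)) j • w j +
          (Phi lam cf x0 (fun a => C a j) (w j) +
            x.sum (fun i y => Phi lam cf y (fun a => γ i a j) (w j))) := by
        intro j
        change ρ.ev (r' j) (w j) = _
        rw [hev, LinearMap.add_apply, LinearMap.add_apply, lsm_apply]
        congr 2
        rw [Finsupp.sum, Finsupp.sum, LinearMap.sum_apply]
      rw [Finset.sum_congr rfl fun j _ => h5 j, Finset.sum_add_distrib, Finset.sum_add_distrib,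
        hmid, zero_add] at h4
      rw [← h4.trans (by rfl : (0 : Module.End k (NN R B n)) n0 = 0)]
      congr 1
      rw [Finsupp.sum]
      simp only [Finsupp.sum]
      rw [Finset.sum_comm])
    obtain ⟨hx0, hr1⟩ := hkey
    have hr2 : r0 ᵥ* (1 - g) = 0 := by
      refine h2 _ ?_ ?_
      · rw [Matrix.vecMul_vecMul, sub_mul, one_mul, hg, sub_self, Matrix.vecMul_zero]
      · funext b
        have h4 := congrFun hr1 b
        rw [Finset.sum_apply] at h4
        have h5 : ∀ j, ((r0 ᵥ* (1 - g)) j • w j y0) b = c • ((r0 ᵥ* (1 - g)) j * K j b) := by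
          intro j
          have h6 := congrFun (congrFun hc j) b
          rw [Matrix.of_apply, Matrix.smul_apply] at h6
          change (r0 ᵥ* (1 - g)) j * w j y0 b = _
          rw [hw]
          simp only
          rw [h6, mul_smul_comm]
        rw [Finset.sum_congr rfl fun j _ => h5 j, ← Finset.smul_sum] at h4
        rcases smul_eq_zero.1 h4 with h | h
        · exact absurd h hc0
        · exact h
    have hr3 : r' = psi ρ e x0 ᵥ* C' := by
      rw [hC', psi_vecMul]
      have h6 : (1 - e) * C = C := by rw [Matrix.sub_mul, Matrix.one_mul, heC, sub_zero]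
      rw [h6]
      funext j
      apply ρ.inj
      rw [hev, hr2, hx0, Pi.zero_apply, map_zero, zero_add, Finsupp.sum_zero_index, add_zero,
        ρ.hPh]
    have hp1 : (1 - G) * p = p := by rw [sub_mul, one_mul, hGp, sub_zero]
    have hr4 : r = 0 := by
      calc r = r ᵥ* ((1 - G) * p) := by rw [hp1, hr]
        _ = r' ᵥ* p := by rw [hr', hmap1, Matrix.vecMul_vecMul]
        _ = psi ρ e x0 ᵥ* (C' * p) := by rw [hr3, Matrix.vecMul_vecMul]
        _ = psi ρ e x0 ᵥ* C' - psi ρ e x0 ᵥ* (A.map ρ.φ * s * C') := by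
          rw [hp, Matrix.mul_sub, Matrix.mul_sub, Matrix.mul_one, hCG, sub_zero,
            Matrix.vecMul_sub, ← Matrix.mul_assoc, ← Matrix.mul_assoc, hCK']
        _ = 0 := by
          rw [← Matrix.vecMul_vecMul, ← Matrix.vecMul_vecMul, hs,
            psi_A_s ρ e f A hlam hcf heA hAf x0, sub_self]
    exact hr0 hr4

end

end Pool.Agent.H516R3.NORE
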