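import Mathlib
import Pool.Agent.H516R3.NORE.Dom

/-! Task E4 of `H354-NORE`. -/

set_option autoImplicit false

namespace Pool.Agent.H516R3.NORE

open Matrix H354P

section

variable {k R B : Type} [Field k] [Ring R] [Algebra k R] {m n : ℕ}

/-- the ring structure -/
noncomputable abbrev ringSS (lam : Matrix (Fin m) (Fin n) R →ₗ[k] k)
    (cf : Matrix (Fin m) (Fin n) R →ₗ[k] (B →₀ k)) : Ring (SS lam cf) := Algebra.semiringToRing k

/-- the representation -/
noncomputable def repSS (lam : Matrix (Fin m) (Fin n) R →ₗ[k] k)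
    (cf : Matrix (Fin m) (Fin n) R →ₗ[k] (B →₀ k)) :
    @Rep k R B _ _ _ m n lam cf (SS lam cf) (ringSS lam cf) (SS lam cf).algebra :=
  letI := ringSS lam cf
  { ev := ((SS lam cf).val : SS lam cf →+* Module.End k (NN R B n))
    inj := Subtype.val_injective
    φ := phi lam cf
    hφ := fun _ => rfl
    hS := fun z => z.2
    Ph := fun x q => ⟨Phi lam cf x q, II_le lam cf _ (Phi_mem lam cf x q)⟩
    hPh := fun _ _ => rfl }

end

theorem taskE4 (k : Type) [Field k] : TaskE4 k := by
  classical
  intro R _ _ _ m n A e f heA hAf hL hRt hA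
  have hA0 : A ≠ 0 := by
    rintro rfl
    exact hA ⟨0, 0, by ext; simp⟩
  have hn : 0 < n := by
    rcases Nat.eq_zero_or_pos n with h | h
    · subst h
      exact absurd (by ext i j; exact j.elim0) hA0
    · exact h
  have hLm : ∀ {t : ℕ} (H : Matrix (Fin t) (Fin m) R), H * A = 0 → H * e = H := by
    intro t H hH
    funext i
    rw [Matrix.mul_apply_eq_vecMul]
    exact hL _ (by rw [← Matrix.mul_apply_eq_vecMul, hH]; rfl)
  have hRm : ∀ {t : ℕ} (H : Matrix (Fin n) (Fin t) R), A * H = 0 → f * H = H := by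
    intro t H hH
    ext i j
    have h1 := hRt (fun a => H a j) (by
      funext b
      have := congrFun (congrFun hH b) j
      rw [Matrix.mul_apply] at this
      exact this)
    have h2 := congrFun h1 i
    rw [Matrix.mul_apply]
    exact h2
  have hee : e * e = e := hLm e heA
  have hff : f * f = f := hRm f hAf
  set P : Submodule k (Matrix (Fin m) (Fin n) R) := Submodule.span k {A} with hP
  let b := Module.Basis.ofVectorSpace k (Matrix (Fin m) (Fin n) R ⧸ P)
  let cf : Matrix (Fin m) (Fin n) R →ₗ[k] (_ →₀ k) := b.repr.toLinearMap ∘ₗ P.mkQ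
  have hcf : cf A = 0 := by
    change b.repr (P.mkQ A) = 0
    rw [show P.mkQ A = 0 from (Submodule.Quotient.mk_eq_zero P).2
      (Submodule.mem_span_singleton_self A), map_zero]
  have hcf' : ∀ M, cf M = 0 → ∃ c : k, M = c • A := by
    intro M hM
    have h1 : P.mkQ M = 0 := by
      have : b.repr (P.mkQ M) = 0 := hM
      exact (LinearEquiv.map_eq_zero_iff _).1 this
    obtain ⟨c, hc⟩ := Submodule.mem_span_singleton.1 ((Submodule.Quotient.mk_eq_zero P).1 h1)
    exact ⟨c, hc.symm⟩
  obtain ⟨lam, hlam'⟩ := LinearMap.exists_leftInverse_of_injective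
    (LinearMap.toSpanSingleton k (Matrix (Fin m) (Fin n) R) A) (by
      rw [LinearMap.ker_eq_bot']
      intro c hc
      rw [LinearMap.toSpanSingleton_apply] at hc
      rcases smul_eq_zero.1 hc with h | h
      · exact h
      · exact absurd h hA0)
  have hlam : lam A = 1 := by
    have h1 := LinearMap.congr_fun hlam' 1
    rw [LinearMap.comp_apply, LinearMap.toSpanSingleton_apply, one_smul] at h1
    exact h1
  letI := ringSS lam cf
  let ρ := repSS lam cf
  have hone : ∀ {t : ℕ} (g : Matrix (Fin t) (Fin t) R), (1 - g).map ρ.φ = 1 - g.map ρ.φ := by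
    intro t g
    ext i j
    rw [Matrix.map_apply, Matrix.sub_apply, Matrix.sub_apply, map_sub, Matrix.map_apply]
    congr 1
    by_cases h : i = j
    · subst h; simp
    · simp [Matrix.one_apply_ne h]
  have hse : sm ρ e f * e.map ρ.φ = 0 := s_e ρ e f hee
  have hfs : f.map ρ.φ * sm ρ e f = 0 := f_s ρ e f hff
  refine ⟨SS lam cf, ringSS lam cf, (SS lam cf).algebra,
    isDomain_SS lam cf A hcf' hA hn, ρ.φ, sm ρ e f, phi_injective lam cf hn,
    s_A_s ρ e f A hlam hcf heA hAf, hse, hfs, ?_, ?_⟩
  · have h := domLike ρ e f A hlam hcf heA hAf hcf' hA f (1 - f) A hff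
      (by rw [mul_sub, mul_one, hff, sub_self]) (by rw [sub_mul, one_mul, hff, sub_self]) heA hAf
      (by rw [Matrix.mul_sub, Matrix.mul_one, hAf, sub_zero])
      (fun h hh0 hh => hcf' h (by
        rw [Matrix.mul_sub, Matrix.mul_one, hh0, sub_zero] at hh; exact hh))
      (fun r h1 h2 => by
        rw [Matrix.vecMul_sub, Matrix.vecMul_one, h1, sub_zero] at h2; exact h2)
      (fun W h1 h2 => by
        obtain ⟨c, hc⟩ := hcf' _ h2
        refine ⟨c, ?_⟩
        have h3 : A * (W - c • (1 : Matrix (Fin n) (Fin n) R)) = 0 := by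
          rw [Matrix.mul_sub, hc, Matrix.mul_smul, Matrix.mul_one, sub_self]
        have h4 := hRm _ h3
        rw [Matrix.mul_sub, h1, Matrix.mul_smul, Matrix.mul_one, zero_sub] at h4
        rw [smul_sub]
        rw [eq_sub_iff_add_eq] at h4 ⊢
        rw [← h4]
        abel)
    have e1 : (1 - f).map ρ.φ * sm ρ e f = sm ρ e f := by
      rw [hone, Matrix.sub_mul, Matrix.one_mul, hfs, sub_zero]
    rw [e1] at h
    exact h
  · have h := domLike ρ e f A hlam hcf heA hAf hcf' hA e A (1 - e) hee heA hAf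
      (by rw [mul_sub, mul_one, hee, sub_self]) (by rw [sub_mul, one_mul, hee, sub_self])
      (by rw [Matrix.sub_mul, Matrix.one_mul, heA, sub_zero])
      (fun h hh0 hh => by
        obtain ⟨c, hc⟩ := hcf' _ hh
        refine ⟨c, ?_⟩
        have h3 : (h - c • (1 : Matrix (Fin m) (Fin m) R)) * A = 0 := by
          rw [Matrix.sub_mul, hc, Matrix.smul_mul, Matrix.one_mul, sub_self]
        have h4 := hLm _ h3
        rw [Matrix.sub_mul, hh0, Matrix.smul_mul, Matrix.one_mul, zero_sub] at h4
        rw [smul_sub]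
        rw [eq_sub_iff_add_eq] at h4 ⊢
        rw [← h4]
        abel)
      (fun r h1 h2 => by
        have h3 := hL r h2
        rw [h1] at h3
        exact h3.symm)
      (fun W h1 h2 => hcf' W (by
        rw [Matrix.sub_mul, Matrix.one_mul, h1, sub_zero] at h2; exact h2))
    have e1 : A.map ρ.φ * sm ρ e f * (1 - e).map ρ.φ = A.map ρ.φ * sm ρ e f := by
      rw [hone, Matrix.mul_sub, Matrix.mul_one, Matrix.mul_assoc, hse, Matrix.mul_zero, sub_zero]
    rw [e1] at h
    exact h

end Pool.Agent.H516R3.NORE
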